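import Mathlib

/-!
# The Gauss valuation ring of `k(x)`

For a valuation ring `V` of a field `k` the Gauss valuation ring of `k(x)` consists of the
quotients `g / h` of polynomials with coefficients in `V` with `h` not zero modulo the maximal
ideal.
-/

set_option autoImplicit false

open Polynomial

namespace Pool.Agent.ST

section

variable {k : Type*} [Field k] (V : ValuationSubring k)

/-- The inclusion `V[X] → k(X)`. -/
noncomputable def gaussInc : (↥V)[X] →+* RatFunc k :=
  (algebraMap k[X] (RatFunc k)).comp (mapRingHom V.subtype)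

theorem gaussInc_apply (g : (↥V)[X]) :
    gaussInc V g = algebraMap k[X] (RatFunc k) (g.map V.subtype) := rfl

theorem gaussInc_injective : Function.Injective (gaussInc V) := by
  intro a b h
  rw [gaussInc_apply, gaussInc_apply] at h
  exact Polynomial.map_injective _ Subtype.coe_injective (RatFunc.algebraMap_injective k h)

theorem gauss_ne_zero {h : (↥V)[X]} (hh : h.map (IsLocalRing.residue V) ≠ 0) :
    gaussInc V h ≠ 0 := by
  intro h0
  have : h = 0 := gaussInc_injective V (by rw [h0, map_zero])
  rw [this, Polynomial.map_zero] at hh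
  exact hh rfl

/-- Every nonzero polynomial over `k` is a constant times a primitive polynomial over `V`. -/
theorem gauss_content {p : k[X]} (hp : p ≠ 0) : ∃ (a : k) (g : (↥V)[X]), a ≠ 0 ∧
    g.map (IsLocalRing.residue V) ≠ 0 ∧ p = C a * g.map V.subtype := by
  obtain ⟨n, hn, hmax⟩ := Finset.exists_max_image p.support (fun n => V.valuation (p.coeff n))
    (Polynomial.support_nonempty.2 hp)
  have ha : p.coeff n ≠ 0 := Polynomial.mem_support_iff.1 hn
  have hV : ∀ m, (p.coeff n)⁻¹ * p.coeff m ∈ V := by
    intro m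
    rw [← V.valuation_le_one_iff, map_mul, map_inv₀]
    by_cases hm : m ∈ p.support
    · have h1 := hmax m hm
      have h2 : V.valuation (p.coeff n) ≠ 0 := (Valuation.ne_zero_iff _).2 ha
      calc (V.valuation (p.coeff n))⁻¹ * V.valuation (p.coeff m)
          ≤ (V.valuation (p.coeff n))⁻¹ * V.valuation (p.coeff n) := by gcongr
        _ = 1 := inv_mul_cancel₀ h2
    · rw [Polynomial.notMem_support_iff.1 hm, map_zero, mul_zero]
      exact zero_le_one
  have hl : (C (p.coeff n)⁻¹ * p) ∈ Polynomial.lifts V.subtype := by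
    rw [Polynomial.lifts_iff_coeff_lifts]
    intro m
    exact ⟨⟨(p.coeff n)⁻¹ * p.coeff m, hV m⟩, by rw [coeff_C_mul]; rfl⟩
  obtain ⟨g, hg⟩ := (Polynomial.lifts_iff_set_range _).1 hl
  refine ⟨p.coeff n, g, ha, ?_, ?_⟩
  · intro h0
    have h1 : g.coeff n = 1 := by
      apply Subtype.coe_injective
      have := congrArg (fun q => Polynomial.coeff q n) hg
      simp only [coeff_map, coeff_C_mul, inv_mul_cancel₀ ha] at this
      exact this
    have h2 := congrArg (fun q => Polynomial.coeff q n) h0
    simp only [coeff_map, h1, map_one, coeff_zero] at h2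
    exact one_ne_zero h2
  · rw [hg, ← mul_assoc, ← C_mul, mul_inv_cancel₀ ha, C_1, one_mul]

theorem gaussInc_C (a : ↥V) : gaussInc V (C a) = RatFunc.C (a : k) := by
  rw [gaussInc_apply, map_C, RatFunc.algebraMap_C]
  rfl

/-- The Gauss valuation ring of `k(x)`. -/
noncomputable def gaussRing : ValuationSubring (RatFunc k) where
  carrier := {r | ∃ g h : (↥V)[X], h.map (IsLocalRing.residue V) ≠ 0 ∧
    r * gaussInc V h = gaussInc V g}
  mul_mem' := by
    rintro r s ⟨g, h, hh, e⟩ ⟨g', h', hh', e'⟩
    refine ⟨g * g', h * h', ?_, ?_⟩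
    · rw [Polynomial.map_mul]; exact mul_ne_zero hh hh'
    · rw [map_mul, map_mul, ← e, ← e']; ring
  one_mem' := ⟨1, 1, by simp, by simp⟩
  add_mem' := by
    rintro r s ⟨g, h, hh, e⟩ ⟨g', h', hh', e'⟩
    refine ⟨g * h' + g' * h, h * h', ?_, ?_⟩
    · rw [Polynomial.map_mul]; exact mul_ne_zero hh hh'
    · rw [map_mul, map_add, map_mul, map_mul, ← e, ← e']; ring
  zero_mem' := ⟨0, 1, by simp, by simp⟩
  neg_mem' := by
    rintro r ⟨g, h, hh, e⟩
    exact ⟨-g, h, hh, by rw [map_neg, ← e]; ring⟩
  mem_or_inv_mem' := by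
    intro r
    by_cases hr : r = 0
    · left; rw [hr]; exact ⟨0, 1, by simp, by simp⟩
    obtain ⟨a, g, ha, hg, e1⟩ := gauss_content V (RatFunc.num_ne_zero hr)
    obtain ⟨b, h, hb, hh, e2⟩ := gauss_content V (RatFunc.denom_ne_zero r)
    have hr' : r * (RatFunc.C b * gaussInc V h) = RatFunc.C a * gaussInc V g := by
      have h1 := RatFunc.num_div_denom r
      have h2 : algebraMap k[X] (RatFunc k) r.denom ≠ 0 := by
        rw [Ne, FaithfulSMul.algebraMap_eq_zero_iff]
        exact RatFunc.denom_ne_zero r
      rw [div_eq_iff h2] at h1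
      rw [gaussInc_apply, gaussInc_apply, ← RatFunc.algebraMap_C, ← RatFunc.algebraMap_C,
        ← map_mul, ← map_mul, ← e1, ← e2, h1]
    have hCb : RatFunc.C b ≠ 0 := by
      rw [Ne, map_eq_zero]; exact hb
    have hCa : RatFunc.C a ≠ 0 := by
      rw [Ne, map_eq_zero]; exact ha
    rcases V.mem_or_inv_mem (a / b) with hab | hab
    · left
      refine ⟨C ⟨a / b, hab⟩ * g, h, hh, ?_⟩
      rw [map_mul, gaussInc_C, map_div₀, div_mul_eq_mul_div, ← hr']
      field_simp
    · right
      rw [inv_div] at hab
      refine ⟨C ⟨b / a, hab⟩ * h, g, hg, ?_⟩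
      rw [map_mul, gaussInc_C, map_div₀]
      rw [inv_mul_eq_iff_eq_mul₀ hr, div_mul_eq_mul_div, mul_div_assoc', eq_div_iff hCa, hr']
      ring

theorem mem_gaussRing_iff {r : RatFunc k} : r ∈ gaussRing V ↔ ∃ g h : (↥V)[X],
    h.map (IsLocalRing.residue V) ≠ 0 ∧ r * gaussInc V h = gaussInc V g := Iff.rfl

theorem mem_gaussRing_poly {p : k[X]} :
    algebraMap k[X] (RatFunc k) p ∈ gaussRing V ↔ ∀ n, p.coeff n ∈ V := by
  constructor
  · rintro ⟨g, h, hh, e⟩
    by_cases hp : p = 0
    · intro n; rw [hp, coeff_zero]; exact V.zero_mem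
    obtain ⟨a, p1, ha, hp1, e1⟩ := gauss_content V hp
    have haV : a ∈ V := by
      rcases V.mem_or_inv_mem a with h1 | h1
      · exact h1
      by_contra hna
      have e2 : p1 * h = C ⟨a⁻¹, h1⟩ * g := by
        apply gaussInc_injective
        rw [map_mul, map_mul, gaussInc_C, ← e, e1, map_mul, RatFunc.algebraMap_C, gaussInc_apply V p1]
        have : RatFunc.C (a⁻¹ : k) * RatFunc.C a = 1 := by
          rw [← map_mul, inv_mul_cancel₀ ha, map_one]
        linear_combination (-(algebraMap k[X] (RatFunc k) (p1.map V.subtype) * gaussInc V h)) * this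
      have e3 := congrArg (Polynomial.map (IsLocalRing.residue V)) e2
      rw [Polynomial.map_mul, Polynomial.map_mul, map_C] at e3
      have h4 : IsLocalRing.residue V ⟨a⁻¹, h1⟩ = 0 := by
        rw [IsLocalRing.residue_eq_zero_iff, IsLocalRing.mem_maximalIdeal, mem_nonunits_iff]
        intro hu
        obtain ⟨u, hu⟩ := hu
        apply hna
        have h5 : ((u * u⁻¹ : (↥V)ˣ) : ↥V) = 1 := by simp
        have h6 : a⁻¹ * (((u⁻¹ : (↥V)ˣ) : ↥V) : k) = 1 := by
          have := congrArg (fun x : ↥V => (x : k)) h5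
          simp only [Units.val_mul, hu] at this
          exact this
        have h7 : a = (((u⁻¹ : (↥V)ˣ) : ↥V) : k) := by
          rw [inv_mul_eq_one₀ ha] at h6
          exact h6
        rw [h7]
        exact Subtype.property _
      rw [h4, C_0, zero_mul] at e3
      exact mul_ne_zero hp1 hh e3
    intro n
    rw [e1, coeff_C_mul, coeff_map]
    exact V.mul_mem _ _ haV (Subtype.property _)
  · intro hp
    have hl : p ∈ Polynomial.lifts V.subtype := by
      rw [Polynomial.lifts_iff_coeff_lifts]
      exact fun m => ⟨⟨p.coeff m, hp m⟩, rfl⟩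
    obtain ⟨g, hg⟩ := (Polynomial.lifts_iff_set_range _).1 hl
    exact ⟨g, 1, by simp, by rw [map_one, mul_one, gaussInc_apply, hg]⟩

theorem C_mem_gaussRing {a : k} : RatFunc.C a ∈ gaussRing V ↔ a ∈ V := by
  rw [← RatFunc.algebraMap_C, mem_gaussRing_poly]
  constructor
  · intro h; simpa using h 0
  · intro h n
    rw [coeff_C]
    split_ifs
    · exact h
    · exact V.zero_mem

/-- The Gauss valuation ring is stable under `d/dx`. -/
theorem deriv_mem_gaussRing (D0 : Derivation ℤ (RatFunc k) (RatFunc k)) (hX : D0 RatFunc.X = 1)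
    (hC : ∀ a : k, D0 (RatFunc.C a) = 0) {z : RatFunc k} (hz : z ∈ gaussRing V) :
    D0 z ∈ gaussRing V := by
  have hpoly : ∀ q : k[X], D0 (algebraMap k[X] (RatFunc k) q)
      = algebraMap k[X] (RatFunc k) (derivative q) := by
    intro q
    induction q using Polynomial.induction_on' with
    | add p q hp hq => rw [map_add, map_add, hp, hq, derivative_add, map_add]
    | monomial n a =>
      rw [← C_mul_X_pow_eq_monomial, map_mul, map_pow, RatFunc.algebraMap_C, RatFunc.algebraMap_X,
        Derivation.leibniz, hC, smul_zero, add_zero, Derivation.leibniz_pow, hX,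
        derivative_C_mul, derivative_X_pow, map_mul, map_mul, map_pow, RatFunc.algebraMap_C,
        RatFunc.algebraMap_X, RatFunc.algebraMap_C]
      simp
  have hinc : ∀ g : (↥V)[X], D0 (gaussInc V g) = gaussInc V (derivative g) := by
    intro g
    rw [gaussInc_apply, hpoly, gaussInc_apply, derivative_map]
  obtain ⟨g, h, hh, e⟩ := hz
  refine ⟨derivative g * h - g * derivative h, h * h, ?_, ?_⟩
  · rw [Polynomial.map_mul]; exact mul_ne_zero hh hh
  · have e1 := congrArg D0 e
    rw [Derivation.leibniz, hinc, hinc, smul_eq_mul, smul_eq_mul] at e1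
    rw [map_mul, map_sub, map_mul, map_mul, ← e1, ← e]
    ring

end

/-- The residue field of a valuation ring of an algebraically closed field is algebraically
closed. -/
theorem isAlgClosed_residueField {k : Type*} [Field k] [IsAlgClosed k] (V : ValuationSubring k) :
    IsAlgClosed (IsLocalRing.ResidueField V) := by
  apply IsAlgClosed.of_exists_root
  intro p hp hirr
  have hl : p ∈ Polynomial.lifts (IsLocalRing.residue V) := by
    rw [Polynomial.lifts_iff_coeff_lifts]
    intro n
    exact IsLocalRing.residue_surjective _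
  obtain ⟨q, hq, hdeg, hmon⟩ := Polynomial.lifts_and_natDegree_eq_and_monic hl hp
  have hq0 : (q.map (algebraMap V k)).degree ≠ 0 := by
    rw [hmon.degree_map]
    have := hirr.natDegree_pos
    rw [← hdeg] at this
    exact (Polynomial.natDegree_pos_iff_degree_pos.1 this).ne'
  obtain ⟨z, hz⟩ := IsAlgClosed.exists_root _ hq0
  have hint : IsIntegral V z := ⟨q, hmon, by
    rw [← eval_map]; exact hz⟩
  obtain ⟨w, hw⟩ := IsIntegrallyClosed.isIntegral_iff.1 hint
  refine ⟨IsLocalRing.residue V w, ?_⟩
  rw [← hq, eval_map, eval₂_at_apply]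
  have : q.eval w = 0 := by
    apply FaithfulSMul.algebraMap_injective V k
    rw [map_zero, ← eval₂_at_apply, hw, ← eval_map]
    exact hz
  rw [this, map_zero]

/-- The constants have infinitely many residues. -/
theorem infinite_residues {k : Type*} [Field k] [IsAlgClosed k] (V : ValuationSubring k) :
    {r : IsLocalRing.ResidueField (gaussRing V) | ∃ (a : k) (ha : a ∈ V),
      r = IsLocalRing.residue (gaussRing V)
        ⟨RatFunc.C a, (C_mem_gaussRing V).2 ha⟩}.Infinite := by
  have := isAlgClosed_residueField V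
  let f : V →+* gaussRing V :=
    { toFun := fun a => ⟨RatFunc.C (a : k), (C_mem_gaussRing V).2 a.2⟩
      map_one' := Subtype.ext (by simp)
      map_mul' := fun a b => Subtype.ext (by simp)
      map_zero' := Subtype.ext (by simp)
      map_add' := fun a b => Subtype.ext (by simp) }
  have : IsLocalHom f := by
    constructor
    intro a ha
    obtain ⟨u, hu⟩ := ha
    have h5 : ((u * u⁻¹ : (gaussRing V)ˣ) : gaussRing V) = 1 := by simp
    have h6 : RatFunc.C (a : k) * (((u⁻¹ : (gaussRing V)ˣ) : gaussRing V) : RatFunc k) = 1 := by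
      have := congrArg (fun x : gaussRing V => (x : RatFunc k)) h5
      simp only [Units.val_mul, hu] at this
      exact this
    have ha0 : (a : k) ≠ 0 := by
      intro h0
      rw [h0, map_zero, zero_mul] at h6
      exact zero_ne_one h6
    have h7 : RatFunc.C ((a : k)⁻¹) ∈ gaussRing V := by
      have : RatFunc.C ((a : k)⁻¹) = (((u⁻¹ : (gaussRing V)ˣ) : gaussRing V) : RatFunc k) := by
        rw [map_inv₀]
        exact (eq_inv_of_mul_eq_one_right h6).symm
      rw [this]
      exact Subtype.property _
    have h8 : (a : k)⁻¹ ∈ V := (C_mem_gaussRing V).1 h7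
    exact IsUnit.of_mul_eq_one (⟨(a : k)⁻¹, h8⟩ : ↥V) (Subtype.ext (mul_inv_cancel₀ ha0))
  refine Set.infinite_of_injective_forall_mem
    (f := fun r : IsLocalRing.ResidueField V => IsLocalRing.ResidueField.map f r)
    (RingHom.injective _) ?_
  intro r
  obtain ⟨a, rfl⟩ := IsLocalRing.residue_surjective r
  exact ⟨(a : k), a.2, rfl⟩

/-- An element which lies in every valuation ring is integral. -/
theorem isIntegral_of_forall_valuationSubring {k : Type*} [Field k] {z : k}
    (h : ∀ V : ValuationSubring k, z ∈ V) : IsIntegral ℤ z := by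
  have h1 : z ∈ (⨅ V : {V : ValuationSubring k // (∅ : Set k) ⊆ V.toSubring}, V.1.toSubring) := by
    rw [Subring.mem_iInf]
    exact fun V => h V.1
  rw [iInf_valuationSubring_superset] at h1
  obtain ⟨q, hq, hz⟩ := h1
  have hbot : (Subring.closure (∅ : Set k)) = ⊥ := Subring.closure_empty
  have hint : IsIntegral (Subring.closure (∅ : Set k)) z := ⟨q, hq, hz⟩
  rw [hbot] at hint
  have : Algebra.IsIntegral ℤ (⊥ : Subring k) := by
    constructor
    rintro ⟨x, hx⟩
    obtain ⟨n, hn⟩ := Subring.mem_bot.1 hx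
    have : (⟨x, hx⟩ : (⊥ : Subring k)) = algebraMap ℤ (⊥ : Subring k) n :=
      Subtype.ext (by change x = _; rw [← hn]; simp)
    rw [this]
    exact isIntegral_algebraMap
  have : IsScalarTower ℤ (⊥ : Subring k) k := IsScalarTower.of_algebraMap_eq' (RingHom.ext_int _ _)
  exact isIntegral_trans z hint

end Pool.Agent.ST
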